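import Pool.Agent.H46.VT.Tools

/-!
# Module BP: the pair property gives a tardy presentation (MP_36d07e_lc)
-/

namespace Pool.Agent.H33.VT.BP

open _root_.VT Pool.Agent.H46.VT
open Nat.Partrec (Code)
open Nat.Partrec.Code Encodable Denumerable

theorem a_wst {cU cC : Code} {E : ℕ → List ℕ} {p : ℕ → ℕ} {a : ℕ → ℕ → ℕ}
    (hr : BRun cU cC E p a) {s x : ℕ} (h : a s x ≠ 0) : Wst cC s x := by
  induction s with
  | zero => exact absurd (hr.1 x) h
  | succ s ih =>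
    rw [hr.2] at h
    split_ifs at h with h1 h2
    · exact wst_mono (Nat.le_succ s) h1
    · exact h2
    · exact absurd rfl h

theorem a_const {cU cC : Code} {E : ℕ → List ℕ} {p : ℕ → ℕ} {a : ℕ → ℕ → ℕ}
    (hr : BRun cU cC E p a) {s t x : ℕ} (h : a s x ≠ 0) (hst : s ≤ t) : a t x = a s x := by
  induction t, hst using Nat.le_induction with
  | base => rfl
  | succ t _ ih =>
    have h1 : a t x ≠ 0 := by rw [ih]; exact h
    rw [hr.2, if_pos (a_wst hr h1), ih]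

theorem a_eq {cU cC : Code} {E : ℕ → List ℕ} {p : ℕ → ℕ} {a : ℕ → ℕ → ℕ}
    (hr : BRun cU cC E p a) {s t x : ℕ} (h : a s x ≠ 0) (h' : a t x ≠ 0) : a t x = a s x := by
  rcases le_total s t with hst | hst
  · exact a_const hr h hst
  · exact (a_const hr h' hst).symm

theorem a_ex {cU cC : Code} {E : ℕ → List ℕ} {p : ℕ → ℕ} {a : ℕ → ℕ → ℕ}
    (hr : BRun cU cC E p a) {x : ℕ} (h : x ∈ W cC) : ∃ s, a s x ≠ 0 := by
  classical
  obtain ⟨s, hs, hmin⟩ : ∃ s, Wst cC s x ∧ ∀ t < s, ¬ Wst cC t x :=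
    ⟨Nat.find h, Nat.find_spec h, fun t ht => Nat.find_min h ht⟩
  cases s with
  | zero => exact absurd hs not_wst_zero
  | succ s =>
    refine ⟨s + 1, ?_⟩
    rw [hr.2, if_neg (hmin s (Nat.lt_succ_self s)), if_pos hs]
    unfold bpick
    split_ifs <;> simp

/-- the stage condition of the set `B` -/
def Bc (E : ℕ → List ℕ) (p : ℕ → ℕ) (a : ℕ → ℕ → ℕ) (q x : ℕ) : Prop :=
  a q.unpair.1 x ≠ 0 ∧ Wst (ofNat Code (a q.unpair.1 x - 1)) q.unpair.2 x ∧
    (∀ t < q.unpair.2, ¬ Wst (ofNat Code (a q.unpair.1 x - 1)) t x) ∧ x ∉ E (p q.unpair.2)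

theorem cp_Bc {E : ℕ → List ℕ} {p : ℕ → ℕ} {a : ℕ → ℕ → ℕ} (hE : Computable E)
    (hp : Computable p) (ha : Computable₂ a) :
    ComputablePred (fun q : ℕ × ℕ => Bc E p a q.1 q.2) := by
  unfold Bc
  have h1 : Computable (fun q : ℕ × ℕ => a q.1.unpair.1 q.2) :=
    ha.comp (co_unpair1 Computable.fst) Computable.snd
  have h2 : Computable (fun q : ℕ × ℕ => ofNat Code (a q.1.unpair.1 q.2 - 1)) :=
    co_ofNatCode (co_sub h1 (Computable.const 1))
  refine cp_and (cp_not (cp_eq h1 (Computable.const 0))) (cp_and ?_ (cp_and ?_ ?_))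
  · exact cp_wst h2 (co_unpair2 Computable.fst) Computable.snd
  · refine cp_forall_lt (α := ℕ × ℕ)
      (p := fun q t => ¬ Wst (ofNat Code (a q.1.unpair.1 q.2 - 1)) t q.2) ?_
      (co_unpair2 Computable.fst)
    exact cp_not (cp_wst (h2.comp Computable.fst) Computable.snd
      (Computable.snd.comp Computable.fst))
  · exact cp_not (cp_mem (hE.comp (hp.comp (co_unpair2 Computable.fst))) Computable.snd)

theorem pf_BP (hBC : TARGET_BC) (hBK : TARGET_BK) : TARGET_BP := by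
  classical
  intro U A Vs E p hU hE hVs hQ hp hpm
  obtain ⟨C, hC, hAC, hCU, hWM, hQ⟩ := hQ
  obtain ⟨cU, rfl⟩ := ce_iff_code.1 hU
  obtain ⟨cC, rfl⟩ := ce_iff_code.1 hC
  obtain ⟨a, ha, hr⟩ := hBC cU cC E p hE.comp hp
  -- the set B
  set B : Set ℕ := {x | ∃ q, Bc E p a q x} with hB
  have hBce : CE B := ce_of_exists (cp_Bc hE.comp hp ha)
  have hBC' : B ⊆ W cC := by
    rintro x ⟨q, h1, -⟩
    exact ⟨_, a_wst hr h1⟩
  obtain ⟨D, hD, hDC, hQ⟩ := hQ B hBce hBC'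
  obtain ⟨e, rfl⟩ := ce_iff_code.1 hD
  set n : ℕ := encode e with hn
  have hne : ofNat Code n = e := ofNat_encode e
  set S : Set ℕ := Sp a n with hS
  set S' : Set ℕ := {x | ∃ s, a s x ≠ 0 ∧ a s x ≠ n + 1} with hS'
  have hSce : CE S := ce_of_exists (P := fun s x => a s x = n + 1)
    (cp_eq (ha.comp Computable.fst Computable.snd) (Computable.const _))
  have hS'ce : CE S' := ce_of_exists (P := fun s x => a s x ≠ 0 ∧ a s x ≠ n + 1)
    (cp_and (cp_not (cp_eq (ha.comp Computable.fst Computable.snd) (Computable.const _)))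
      (cp_not (cp_eq (ha.comp Computable.fst Computable.snd) (Computable.const _))))
  have hSC : S ⊆ W cC := by
    rintro x ⟨s, hs⟩
    exact ⟨s, a_wst hr (by omega)⟩
  have hU' : S ∪ S' = W cC := by
    ext x
    constructor
    · rintro (hx | ⟨s, hs, -⟩)
      · exact hSC hx
      · exact ⟨s, a_wst hr hs⟩
    · intro hx
      obtain ⟨s, hs⟩ := a_ex hr hx
      by_cases h : a s x = n + 1
      · exact Or.inl ⟨s, h⟩
      · exact Or.inr ⟨s, hs, h⟩
  have hI' : S ∩ S' = ∅ := by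
    ext x
    constructor
    · rintro ⟨⟨s, hs⟩, t, ht, ht'⟩
      exact absurd (a_eq hr (s := s) (by omega) ht) (by omega)
    · exact fun h => absurd h (Set.notMem_empty x)
  -- elements of B in S are in D
  have hBS : ∀ x, x ∈ S → ∀ q, Bc E p a q x → Wst e q.unpair.2 x ∧
      (∀ t < q.unpair.2, ¬ Wst e t x) ∧ x ∉ E (p q.unpair.2) := by
    rintro x ⟨s, hs⟩ q ⟨h1, h2, h3, h4⟩
    have h5 : a q.unpair.1 x = n + 1 := by
      rw [a_eq hr (s := s) (by omega) h1, hs]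
    rw [h5, Nat.add_sub_cancel, hne] at h2 h3
    exact ⟨h2, h3, h4⟩
  have hBD : ∀ x, x ∈ S → x ∈ B → x ∈ W e := by
    rintro x hx ⟨q, hq⟩
    exact ⟨_, (hBS x hx q hq).1⟩
  have hDB : ∀ x, x ∈ S → x ∉ A → x ∈ W e → x ∈ B := by
    rintro x ⟨s, hs⟩ hxA hxe
    refine ⟨Nat.pair s (Nat.find hxe), ?_⟩
    unfold Bc
    rw [Nat.unpair_pair, hs, Nat.add_sub_cancel, hne]
    refine ⟨by omega, Nat.find_spec hxe, fun t ht => Nat.find_min hxe ht, fun h => hxA ?_⟩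
    exact (hE.mem x).2 ⟨_, h⟩
  obtain ⟨V, hV, T, hT, hTU, hABT⟩ := hQ S S' hSce hS'ce hU' hI' (by
    ext x
    constructor
    · rintro ⟨h1, h2⟩
      exact ⟨hBD x h2.1 h1, h2⟩
    · rintro ⟨h1, h2⟩
      exact ⟨hDB x h2.1 h2.2 h1, h2⟩)
  obtain ⟨Z, hZ, hZA, hUZ⟩ := hWM T hT hTU
  obtain ⟨P, hP⟩ := ce_iff_code.1 (ce_inter hT hU)
  obtain ⟨Z1, hZ1⟩ := ce_iff_code.1 (ce_inter hZ hU)
  obtain ⟨v, hv⟩ := ce_iff_code.1 (hVs V hV).1
  obtain ⟨v', hv'⟩ := ce_iff_code.1 (hVs V hV).2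
  set i : ℕ := Nat.pair n (Nat.pair (encode P) (Nat.pair (encode Z1)
    (Nat.pair (encode v) (encode v')))) with hi
  have i1 : bn i = n := by unfold bn; rw [hi, Nat.unpair_pair]
  have i2 : be i = e := by unfold be; rw [hi, Nat.unpair_pair]; exact hne
  have i3 : bP i = P := by
    unfold bP
    rw [hi, Nat.unpair_pair]
    dsimp only
    rw [Nat.unpair_pair]
    exact ofNat_encode P
  have i4 : bZ i = Z1 := by
    unfold bZ
    simp only [hi, Nat.unpair_pair, ofNat_encode]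
  have i5 : bv i = v := by
    unfold bv
    simp only [hi, Nat.unpair_pair, ofNat_encode]
  have i6 : bv' i = v' := by
    unfold bv'
    simp only [hi, Nat.unpair_pair, ofNat_encode]
  have hXS : XS i = ((T ∩ W cU) \ W e) ∪ (Z ∩ W cU) := by
    unfold XS
    rw [i2, i3, i4, ← hP, ← hZ1]
  have hAB : ∀ x, x ∈ S → x ∈ T → x ∈ V → (x ∈ A ↔ x ∈ B) := by
    intro x h1 h2 h3
    have h4 : x ∈ A ∩ S ∩ T ∩ V ↔ x ∈ B ∩ S ∩ T ∩ V := by rw [hABT]
    constructor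
    · intro h
      exact (h4.1 ⟨⟨⟨h, h1⟩, h2⟩, h3⟩).1.1.1
    · intro h
      exact (h4.2 ⟨⟨⟨h, h1⟩, h2⟩, h3⟩).1.1.1
  have hHYP : HYP cU cC a A i := by
    refine ⟨?_, ?_, ?_⟩
    · rw [i5, i6, ← hv, ← hv']
    · intro y hy1 hy2 hy3
      rw [hXS]
      exact Or.inl ⟨⟨hTU ⟨hy1, hy3⟩, hy1⟩, fun h => hy3 (hDC h)⟩
    · intro y hy1 hy2
      rw [i5, ← hv] at hy1
      rw [i1] at hy2
      rw [hXS]
      constructor
      · rintro (⟨⟨h1, h2⟩, h3⟩ | ⟨h1, h2⟩) hA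
        · exact h3 (hBD y hy2 ((hAB y hy2 h1 hy1).1 hA))
        · exact Set.notMem_empty y (hZA ▸ ⟨h1, hA⟩)
      · intro hA
        have hyU : y ∈ W cU := hCU (hSC hy2)
        rcases hUZ ⟨hyU, hA⟩ with h1 | h1
        · refine Or.inl ⟨⟨h1, hyU⟩, fun h2 => hA ?_⟩
          exact (hAB y hy2 h1 hy1).2 (hDB y hy2 hA h2)
        · exact Or.inr ⟨h1, hyU⟩
  have hNW : NW E p a i := by
    intro x hx1 hx2 t hX hxE
    rw [i5, ← hv] at hx1
    rw [i1] at hx2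
    have hxA : x ∈ A := (hE.mem x).2 ⟨_, hxE⟩
    unfold Xs at hX
    rw [i2, i3, i4] at hX
    rcases hX with ⟨h1, h2⟩ | h1
    · have hxT : x ∈ T ∩ W cU := by
        rw [hP]
        exact ⟨t, h1⟩
      obtain ⟨q, hq⟩ := (hAB x hx2 hxT.1 hx1).1 hxA
      obtain ⟨h3, h4, h5⟩ := hBS x hx2 q hq
      have h6 : t ≤ q.unpair.2 := by
        by_contra hc
        exact h2 (wst_mono (by omega) h3)
      exact h5 (hE.mono _ _ _ (hpm h6) hxE)
    · have hxZ : x ∈ Z ∩ W cU := by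
        rw [hZ1]
        exact ⟨t, h1⟩
      exact Set.notMem_empty x (hZA ▸ ⟨hxZ.1, hxA⟩)
  refine ⟨V, hV, ?_⟩
  have := hBK cU cC E p a A hE hp ha hr hAC hCU hWM i hHYP hNW
  rwa [i5, ← hv] at this

end Pool.Agent.H33.VT.BP
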